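import Pool.Agent.Helper43.DB.FIN
import Pool.Agent.Helper94.DB.UP

/-!
# MP_9b2a83_an: upper bounds below `(log n)^(d-1)` for fixed dimension

`EN ρ n 1` is the least number of edges `E_p(n, 1, d)` and `CN ρ c` is `C_p(c, d)`, where `ρ` is
`dOne` or `dInf` on `Fin d → ℝ`; `G c = 1 + log (1 + 1 / (c - 1))`.
-/

namespace Pool.Agent.Results.MP_9b2a83_an.BelowRangeTrees

open Pool.Agent.Helper39.Net Pool.Agent.Helper43.DB Pool.Agent.Helper43.DB.FIN

theorem one_le_X (r : ℕ) {g : ℝ} (hg : 1 ≤ g) :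
    1 ≤ g ^ (r + 2) / (1 + Real.log g / ((r : ℝ) + 3)) ^ (r - 1) := by
  have hll : 0 ≤ Real.log g := Real.log_nonneg hg
  have hr0 : (0 : ℝ) ≤ r := Nat.cast_nonneg r
  have hpos : (0 : ℝ) < (1 + Real.log g / ((r : ℝ) + 3)) ^ (r - 1) := by positivity
  rw [le_div_iff₀ hpos, one_mul]
  have h1 : Real.log g / ((r : ℝ) + 3) ≤ Real.log g := div_le_self hll (by linarith)
  have h2 : Real.log g ≤ g - 1 := Real.log_le_sub_one_of_pos (by linarith)
  calc (1 + Real.log g / ((r : ℝ) + 3)) ^ (r - 1) ≤ g ^ (r - 1) :=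
        pow_le_pow_left₀ (by positivity) (by linarith) _
    _ ≤ g ^ (r + 2) := pow_le_pow_right₀ hg (by omega)

/-- Fixed dimension: less than `(log n)^(d-1)` edges per point. -/
theorem result : ∃ A : ℝ, 1 ≤ A ∧ ∀ d : ℕ, 5 ≤ d →
    (∀ n : ℕ, 3 ≤ n →
      (Enough (dOne (d := d)) n 1).Nonempty ∧ (Enough (dInf (d := d)) n 1).Nonempty ∧
      (EN (dOne (d := d)) n 1 : ℝ) ≤
        A ^ d * n * Real.log n ^ (d - 1) / (1 + Real.log (Real.log n) / d) ^ (d - 4) ∧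
      (EN (dInf (d := d)) n 1 : ℝ) ≤
        A ^ d * d.factorial * n * Real.log n ^ (d - 1) /
          (1 + Real.log (Real.log n) / d) ^ (d - 4)) ∧
    (∀ c : ℝ, 1 < c →
      BddAbove (Ratios (dOne (d := d)) c) ∧ BddAbove (Ratios (dInf (d := d)) c) ∧
      CN (dOne (d := d)) c ≤ (A * d) ^ d * G c ^ (d - 1) / (1 + Real.log (G c) / d) ^ (d - 4) ∧
      CN (dInf (d := d)) c ≤ (A * d) ^ d * d.factorial * G c ^ (d - 1) /
        (1 + Real.log (G c) / d) ^ (d - 4)) := by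
  refine ⟨10 ^ 9, by norm_num, ?_⟩
  intro d hd
  obtain ⟨r, rfl⟩ : ∃ r, d = r + 3 := ⟨d - 3, by omega⟩
  have hr : 1 ≤ r := by omega
  have hr0 : (0 : ℝ) < r := by exact_mod_cast hr
  have e1 : r + 3 - 1 = r + 2 := rfl
  have e2 : r + 3 - 4 = r - 1 := by omega
  have e3 : (((r + 3 : ℕ) : ℝ)) = (r : ℝ) + 3 := by push_cast; ring
  rw [e1, e2, e3]
  have hf1 : (1 : ℝ) ≤ (r + 3).factorial := by exact_mod_cast (r + 3).factorial_pos
  have hone := (Pool.Agent.Helper94.DB.UP.up (r + 2) (T1 r)).1 fun L => exNet_one r L hr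
  have hinf := (Pool.Agent.Helper94.DB.UP.up (r + 2)
    (fun L => (r + 2 + 1).factorial * 2 ^ (r + 2 + 1) * T1 r L)).2
    fun L => Pool.Agent.Helper94.DB.UP.inf (r + 2) L _ (exNet_one r L hr)
  refine ⟨fun n hn => ⟨⟨_, enough_one (r + 2) n (by omega) 1 le_rfl⟩,
    ⟨_, enough_inf (r + 2) n (by omega) 1 le_rfl⟩, ?_, ?_⟩,
    fun c hc => ⟨bdd_one (r + 2) c hc, bdd_inf (r + 2) c hc, ?_, ?_⟩⟩
  · have h1 : (EN (dOne (d := r + 2 + 1)) n 1 : ℝ) ≤ n * T1 r (Nat.clog 2 n) := by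
      exact_mod_cast hone.1 n (by omega)
    have h2 := T1_clog r n hr hn
    have hn0 : (0 : ℝ) ≤ n := Nat.cast_nonneg n
    have hl0 : 0 ≤ Real.log n := Real.log_nonneg (by exact_mod_cast (by omega : 1 ≤ n))
    have hll := log_log_nonneg hn
    set P : ℝ := (1 + Real.log (Real.log n) / ((r : ℝ) + 3)) ^ (r - 1) with hP
    have hPpos : 0 < P := by rw [hP]; positivity
    have h3 : (800000 : ℝ) ^ (r + 3) ≤ (10 ^ 9) ^ (r + 3) :=
      pow_le_pow_left₀ (by norm_num) (by norm_num) _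
    calc _ ≤ _ := h1
      _ ≤ n * (800000 ^ (r + 3) * Real.log n ^ (r + 2) / P) := mul_le_mul_of_nonneg_left h2 hn0
      _ = 800000 ^ (r + 3) * n * Real.log n ^ (r + 2) / P := by ring
      _ ≤ _ := by gcongr
  · have h1 : (EN (dInf (d := r + 2 + 1)) n 1 : ℝ) ≤
        n * ((r + 2 + 1).factorial * 2 ^ (r + 2 + 1) * T1 r (Nat.clog 2 n)) := by
      exact_mod_cast hinf.1 n (by omega)
    have h2 := T1_clog r n hr hn
    have hn0 : (0 : ℝ) ≤ n := Nat.cast_nonneg n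
    have hl0 : 0 ≤ Real.log n := Real.log_nonneg (by exact_mod_cast (by omega : 1 ≤ n))
    have hll := log_log_nonneg hn
    set P : ℝ := (1 + Real.log (Real.log n) / ((r : ℝ) + 3)) ^ (r - 1) with hP
    have hPpos : 0 < P := by rw [hP]; positivity
    have h3 : (2 : ℝ) ^ (r + 3) * 800000 ^ (r + 3) ≤ (10 ^ 9) ^ (r + 3) := by
      rw [← mul_pow]
      exact pow_le_pow_left₀ (by norm_num) (by norm_num) _
    calc _ ≤ _ := h1
      _ ≤ n * ((r + 3).factorial * 2 ^ (r + 3) *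
          (800000 ^ (r + 3) * Real.log n ^ (r + 2) / P)) := by
          refine mul_le_mul_of_nonneg_left ?_ hn0
          exact mul_le_mul_of_nonneg_left h2 (by positivity)
      _ = (2 ^ (r + 3) * 800000 ^ (r + 3)) * (r + 3).factorial * n * Real.log n ^ (r + 2) / P := by
          ring
      _ ≤ _ := by gcongr
  · have h1 := hone.2 c hc
    have h2 := T1_ell r hr hc
    have hX := one_le_X r (one_le_G hc)
    set X : ℝ := G c ^ (r + 2) / (1 + Real.log (G c) / ((r : ℝ) + 3)) ^ (r - 1) with hXdef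
    have h4 : 1 + 6 * 9 ^ (r + 2 + 1) * (T1 r ((r + 2 + 1) * ell c) : ℝ) ≤
        (13 * 9 ^ (r + 3) * (960000 * ((r : ℝ) + 3)) ^ (r + 3)) * X := by
      have h5 : 6 * 9 ^ (r + 2 + 1) * (T1 r ((r + 2 + 1) * ell c) : ℝ) ≤
          6 * 9 ^ (r + 3) * ((960000 * ((r : ℝ) + 3)) ^ (r + 3) * 2 * X) :=
        mul_le_mul_of_nonneg_left h2 (by positivity)
      have h6 : (1 : ℝ) ≤ 9 ^ (r + 3) * (960000 * ((r : ℝ) + 3)) ^ (r + 3) :=
        one_le_mul_of_one_le_of_one_le (one_le_pow₀ (by norm_num)) (one_le_pow₀ (by linarith))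
      have h7 : (1 : ℝ) ≤ 9 ^ (r + 3) * (960000 * ((r : ℝ) + 3)) ^ (r + 3) * X :=
        one_le_mul_of_one_le_of_one_le h6 hX
      nlinarith
    refine h1.trans (h4.trans ?_)
    rw [hXdef, ← mul_div_assoc]
    have hG := one_le_G hc
    have hll : 0 ≤ Real.log (G c) := Real.log_nonneg hG
    have h8 : 13 * 9 ^ (r + 3) * (960000 * ((r : ℝ) + 3)) ^ (r + 3) ≤
        (10 ^ 9 * ((r : ℝ) + 3)) ^ (r + 3) := by
      have e : (13 : ℝ) * 9 ^ (r + 3) * (960000 * ((r : ℝ) + 3)) ^ (r + 3) =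
          13 * (8640000 * ((r : ℝ) + 3)) ^ (r + 3) := by
        rw [mul_assoc, ← mul_pow]; ring_nf
      rw [e]
      have h13 : (13 : ℝ) ≤ 13 ^ (r + 3) := by
        calc (13 : ℝ) = 13 ^ 1 := by norm_num
          _ ≤ 13 ^ (r + 3) := pow_le_pow_right₀ (by norm_num) (by omega)
      calc (13 : ℝ) * (8640000 * ((r : ℝ) + 3)) ^ (r + 3) ≤
          13 ^ (r + 3) * (8640000 * ((r : ℝ) + 3)) ^ (r + 3) := by gcongr
        _ = (13 * (8640000 * ((r : ℝ) + 3))) ^ (r + 3) := by rw [← mul_pow]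
        _ ≤ _ := pow_le_pow_left₀ (by positivity) (by nlinarith) _
    gcongr
  · have h1 := hinf.2 c hc
    have h2 := T1_ell r hr hc
    have hX := one_le_X r (one_le_G hc)
    set X : ℝ := G c ^ (r + 2) / (1 + Real.log (G c) / ((r : ℝ) + 3)) ^ (r - 1) with hXdef
    push_cast at h1
    set f : ℝ := ((r + 3).factorial : ℝ) with hf
    have h4 : 1 + 6 * 9 ^ (r + 2 + 1) * (f * 2 ^ (r + 2 + 1) *
        (T1 r ((r + 2 + 1) * ell c) : ℝ)) ≤
        (13 * 18 ^ (r + 3) * (960000 * ((r : ℝ) + 3)) ^ (r + 3)) * f * X := by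
      have h5 : 6 * 9 ^ (r + 2 + 1) * (f * 2 ^ (r + 2 + 1) *
          (T1 r ((r + 2 + 1) * ell c) : ℝ)) ≤
          6 * 9 ^ (r + 3) * (f * 2 ^ (r + 3) * ((960000 * ((r : ℝ) + 3)) ^ (r + 3) * 2 * X)) := by
        refine mul_le_mul_of_nonneg_left ?_ (by positivity)
        exact mul_le_mul_of_nonneg_left h2 (by positivity)
      have e : 6 * 9 ^ (r + 3) * (f * 2 ^ (r + 3) * ((960000 * ((r : ℝ) + 3)) ^ (r + 3) * 2 * X)) =
          12 * (18 ^ (r + 3) * (960000 * ((r : ℝ) + 3)) ^ (r + 3) * f * X) := by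
        rw [show (18 : ℝ) = 9 * 2 by norm_num, mul_pow (9 : ℝ) 2]; ring
      have h6 : (1 : ℝ) ≤ 18 ^ (r + 3) * (960000 * ((r : ℝ) + 3)) ^ (r + 3) :=
        one_le_mul_of_one_le_of_one_le (one_le_pow₀ (by norm_num)) (one_le_pow₀ (by linarith))
      have h7 : (1 : ℝ) ≤ 18 ^ (r + 3) * (960000 * ((r : ℝ) + 3)) ^ (r + 3) * f * X :=
        one_le_mul_of_one_le_of_one_le (one_le_mul_of_one_le_of_one_le h6 hf1) hX
      rw [e] at h5
      linarith
    refine h1.trans (h4.trans ?_)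
    rw [hXdef, ← mul_div_assoc]
    have hG := one_le_G hc
    have hll : 0 ≤ Real.log (G c) := Real.log_nonneg hG
    have h8 : 13 * 18 ^ (r + 3) * (960000 * ((r : ℝ) + 3)) ^ (r + 3) ≤
        (10 ^ 9 * ((r : ℝ) + 3)) ^ (r + 3) := by
      have e : (13 : ℝ) * 18 ^ (r + 3) * (960000 * ((r : ℝ) + 3)) ^ (r + 3) =
          13 * (17280000 * ((r : ℝ) + 3)) ^ (r + 3) := by
        rw [mul_assoc, ← mul_pow]; ring_nf
      rw [e]
      have h13 : (13 : ℝ) ≤ 13 ^ (r + 3) := by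
        calc (13 : ℝ) = 13 ^ 1 := by norm_num
          _ ≤ 13 ^ (r + 3) := pow_le_pow_right₀ (by norm_num) (by omega)
      calc (13 : ℝ) * (17280000 * ((r : ℝ) + 3)) ^ (r + 3) ≤
          13 ^ (r + 3) * (17280000 * ((r : ℝ) + 3)) ^ (r + 3) := by gcongr
        _ = (13 * (17280000 * ((r : ℝ) + 3))) ^ (r + 3) := by rw [← mul_pow]
        _ ≤ _ := pow_le_pow_left₀ (by positivity) (by nlinarith) _
    gcongr

end Pool.Agent.Results.MP_9b2a83_an.BelowRangeTrees
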