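import Pool.Agent.Helper39.Net.Parts

/-!
# MP_9b2a83_an, Q2: weighted graphs for finite subsets of `ℓ_1^d` and `ℓ_∞^d`, distortion `1`

`EN ρ n 1` is the least number of edges `E_p(n, 1, d)`, where `ρ` is `dOne` or `dInf` on
`Fin d → ℝ`.
-/

namespace Pool.Agent.Results.MP_9b2a83_an.DistortionOne

open Pool.Agent.Helper39.Net Set

/-- Bounds for the number of edges of the weighted graphs realising isometrically the finite subsets
of `ℓ_1^d` and `ℓ_∞^d`. -/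
theorem result : ∃ A : ℝ, 1 ≤ A ∧
    (∀ d : ℕ, 1 ≤ d → ∀ n : ℕ, 2 ≤ n →
      (Enough (dOne (d := d)) n 1).Nonempty ∧ (Enough (dInf (d := d)) n 1).Nonempty ∧
      (EN (dOne (d := d)) n 1 : ℝ) ≤ A ^ d * n * Real.log n ^ (d - 1) ∧
      (EN (dInf (d := d)) n 1 : ℝ) ≤ A ^ d * d.factorial * n * Real.log n ^ (d - 1)) ∧
    (∀ d : ℕ, 2 ≤ d → ∀ n : ℕ, 2 ≤ n →
      (n : ℝ) * Real.log n ≤ A * EN (dOne (d := d)) n 1 ∧
      (n : ℝ) * Real.log n ≤ A * EN (dInf (d := d)) n 1) := by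
  refine ⟨10000, by norm_num, ?_, ?_⟩
  · intro d hd n hn
    obtain ⟨k, rfl⟩ : ∃ k, d = k + 1 := ⟨d - 1, by omega⟩
    exact ⟨⟨_, enough_one k n (by omega) 1 le_rfl⟩, ⟨_, enough_inf k n (by omega) 1 le_rfl⟩,
      exact_one k n hn, exact_inf k n hn⟩
  · intro d hd n hn
    obtain ⟨k, rfl⟩ : ∃ k, d = k + 2 := ⟨d - 2, by omega⟩
    have h1 := (hlow_one k).2 n hn
    have h2 := (hlow_inf k).2 n hn
    have h3 : (0 : ℝ) ≤ EN (dOne (d := k + 2)) n 1 := Nat.cast_nonneg _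
    have h4 : (0 : ℝ) ≤ EN (dInf (d := k + 2)) n 1 := Nat.cast_nonneg _
    constructor <;> linarith

end Pool.Agent.Results.MP_9b2a83_an.DistortionOne
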