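import Pool.Agent.Helper71.SN.All
import Pool.Agent.Helper87.SN.FQ2

/-!
# MP_9b2a83_an, Q2: a lower bound for isometric embeddings in high dimension

`EN ρ n 1` is the least number of edges `E_p(n, 1, d)`, where `ρ` is `dOne` or `dInf` on
`Fin d → ℝ`.
-/

namespace Pool.Agent.Results.MP_9b2a83_an.DistortionOneHigh

open Pool.Agent.Helper39.Net

/-- The least number of edges of the weighted graphs realising isometrically all `n`-point subsets
of `ℓ_1^d`, respectively `ℓ_∞^d`, is at least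
`A^(-d) n (log n / (A d^2 log (d + log n)))^(d-2)`. -/
theorem result : ∃ A : ℝ, 1 ≤ A ∧ ∀ d : ℕ, 2 ≤ d → ∀ n : ℕ, 2 ≤ n →
    (n : ℝ) * (Real.log n / (A * (d : ℝ) ^ 2 * Real.log (d + Real.log n))) ^ (d - 2) ≤
        A ^ d * EN (dOne (d := d)) n 1 ∧
      (n : ℝ) * (Real.log n / (A * (d : ℝ) ^ 2 * Real.log (d + Real.log n))) ^ (d - 2) ≤
        A ^ d * EN (dInf (d := d)) n 1 := by
  obtain ⟨A, hA, h⟩ := Pool.Agent.Helper71.SN.PkFQ2.thm Pool.Agent.Helper71.SN.low
  refine ⟨A, hA, fun d hd n hn => ?_⟩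
  obtain ⟨k, rfl⟩ : ∃ k, d = k + 2 := ⟨d - 2, by omega⟩
  have e : k + 2 - 2 = k := by omega
  rw [e]
  have := h k n hn
  push_cast
  exact this

end Pool.Agent.Results.MP_9b2a83_an.DistortionOneHigh
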