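import Pool.Agent.Helper39.Net.Parts
import Pool.Agent.Helper39.SQ.All
import Pool.Agent.Helper71.UQ.All

/-!
# MP_9b2a83_an: the growth of `C_p(c, d)` for distortion above one

The definitions of the metric notions are in `Pool/Agent/Helper39/Net/`.
-/

namespace Pool.Agent.Results.MP_9b2a83_an.GrowthLogRatio

open Pool.Agent.Helper39.Net Pool.Agent.Helper39.SQ Set

/-- `L = 1 + log (1 + 1 / (c - 1))`. -/
noncomputable def L (c : ℝ) : ℝ := 1 + Real.log (1 + 1 / (c - 1))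

/-- `log (e + x)`. -/
noncomputable def ll (x : ℝ) : ℝ := Real.log (Real.exp 1 + x)

/-- For `p = 1` and `p = ∞`, with `L = 1 + log (1 + 1 / (c - 1))`, `ℓ = log (e + L)`,
`λ = log (e + ℓ)`: `C_p(c, d)` is finite and
`(L / ℓ)^(d-2) ≤ A^d C_p(c, d)`, `C_1(c, d) ≤ A^d L^2 ℓ (L λ / ℓ)^d`,
`C_∞(c, d) ≤ A^d L^2 ℓ (L λ / ℓ)^(d-1)`, together with the bounds `1 ≤ A C_p`, `L ≤ A C_p` (`d ≥ 2`),
`C_1 ≤ A^d L^(d-1)` and `C_∞ ≤ A^d L^(d-1) min (L, d!)`. Consequently no bound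
`L^(d-k) ≤ B^d C_p(c, d)` holds. -/
theorem result : ∃ A : ℝ, 1 ≤ A ∧
    (∀ d : ℕ, 1 ≤ d → ∀ n : ℕ, 1 ≤ n → ∀ c : ℝ, 1 < c →
      (Enough (dOne (d := d)) n c).Nonempty ∧ (Enough (dInf (d := d)) n c).Nonempty) ∧
    (∀ d : ℕ, 1 ≤ d → ∀ c : ℝ, 1 < c →
      BddAbove (Ratios (dOne (d := d)) c) ∧ BddAbove (Ratios (dInf (d := d)) c) ∧
      1 ≤ A * CN (dOne (d := d)) c ∧ 1 ≤ A * CN (dInf (d := d)) c ∧
      CN (dOne (d := d)) c ≤ A ^ d * L c ^ (d - 1) ∧
      CN (dInf (d := d)) c ≤ A ^ d * L c ^ (d - 1) * min (L c) d.factorial ∧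
      CN (dOne (d := d)) c ≤
        A ^ d * (L c ^ 2 * ll (L c) * (L c * ll (ll (L c)) / ll (L c)) ^ d)) ∧
    (∀ d : ℕ, 2 ≤ d → ∀ c : ℝ, 1 < c →
      CN (dInf (d := d)) c ≤
        A ^ d * (L c ^ 2 * ll (L c) * (L c * ll (ll (L c)) / ll (L c)) ^ (d - 1)) ∧
      (L c / ll (L c)) ^ (d - 2) ≤ A ^ d * CN (dOne (d := d)) c ∧
      (L c / ll (L c)) ^ (d - 2) ≤ A ^ d * CN (dInf (d := d)) c ∧
      L c ≤ A * CN (dOne (d := d)) c ∧
      L c ≤ A * CN (dInf (d := d)) c) ∧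
    (∀ (B : ℝ) (k : ℕ), ∃ (c : ℝ) (d : ℕ), 1 < c ∧ 2 ≤ d ∧ k ≤ d ∧
      B ^ d * CN (dOne (d := d)) c < L c ^ (d - k) ∧
      B ^ d * CN (dInf (d := d)) c < L c ^ (d - k)) := by
  obtain ⟨A0, hA0, hlow⟩ := fin_all
  obtain ⟨A1, hA1, hu1⟩ := Pool.Agent.Helper71.UQ.upp1_all
  obtain ⟨A2, hA2, hu2⟩ := Pool.Agent.Helper71.UQ.uppi_all
  set A : ℝ := max (max A0 (10 ^ 7)) (max A1 A2) with hA
  have hAA0 : A0 ≤ A := (le_max_left _ _).trans (le_max_left _ _)
  have hAA7 : (10 : ℝ) ^ 7 ≤ A := (le_max_right _ _).trans (le_max_left _ _)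
  have hAA1 : A1 ≤ A := (le_max_left _ _).trans (le_max_right _ _)
  have hAA2 : A2 ≤ A := (le_max_right _ _).trans (le_max_right _ _)
  have hB : (1 : ℝ) ≤ A := hA0.trans hAA0
  have hB0 : (0 : ℝ) ≤ A := by linarith
  have hB1 : (10000 : ℝ) ≤ A := le_trans (by norm_num) hAA7
  have hLG : ∀ c, L c = G c := fun c => rfl
  have hbd : ∀ (d : ℕ) (x : ℝ), x ^ 2 * ll x * (x * ll (ll x) / ll x) ^ d =
      Pool.Agent.Helper71.UQ.bd d x := fun d x => rfl
  have hbd0 : ∀ (d : ℕ) (c : ℝ), 1 < c → 0 ≤ Pool.Agent.Helper71.UQ.bd d (G c) := by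
    intro d c hc
    have hG := one_le_G hc
    have h1 : ∀ y : ℝ, 0 ≤ y → 1 ≤ ll y := by
      intro y hy
      unfold ll
      rw [Real.le_log_iff_exp_le (by positivity)]
      linarith
    have h2 := h1 (G c) (by linarith)
    have h3 := h1 (ll (G c)) (by linarith)
    rw [← hbd]
    have h4 : 0 ≤ ll (G c) := by linarith
    have h5 : 0 ≤ ll (ll (G c)) := by linarith
    have h6 : 0 ≤ G c := by linarith
    positivity
  have key : ∀ (k : ℕ) (c : ℝ), 1 < c → 1 ≤ 10000 * CN (dOne (d := k + 1)) c ∧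
      1 ≤ 10000 * CN (dInf (d := k + 1)) c := fun k c hc =>
    ⟨half_le (bdd_one k c hc) (two_one k c hc.le), half_le (bdd_inf k c hc) (two_inf k c hc.le)⟩
  refine ⟨A, hB, ?_, ?_, ?_, ?_⟩
  · intro d hd n hn c hc
    obtain ⟨k, rfl⟩ : ∃ k, d = k + 1 := ⟨d - 1, by omega⟩
    exact ⟨⟨_, enough_one k n hn c hc.le⟩, ⟨_, enough_inf k n hn c hc.le⟩⟩
  · intro d hd c hc
    have hnew := hu1 d c hd hc
    obtain ⟨k, rfl⟩ : ∃ k, d = k + 1 := ⟨d - 1, by omega⟩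
    obtain ⟨k1, k2⟩ := key k c hc
    have hG := one_le_G hc
    have e : k + 1 - 1 = k := rfl
    rw [e, hLG, hbd]
    have hGk : 0 ≤ G c ^ k := by positivity
    refine ⟨bdd_one k c hc, bdd_inf k c hc, ?_, ?_, ?_, ?_, ?_⟩
    · exact k1.trans (mul_le_mul_of_nonneg_right hB1 (by linarith))
    · exact k2.trans (mul_le_mul_of_nonneg_right hB1 (by linarith))
    · have h1 : CN (dOne (d := k + 1)) c ≤ 10000 ^ (k + 1) * G c ^ k :=
        csSup_le ⟨_, 2, le_rfl, rfl⟩ (ratio_one k c hc)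
      refine h1.trans ?_
      exact mul_le_mul_of_nonneg_right (pow_le_pow_left₀ (by norm_num) hB1 _) hGk
    · have h1 : CN (dInf (d := k + 1)) c ≤ 10000 ^ (k + 1) * (k + 1).factorial * G c ^ k :=
        csSup_le ⟨_, 2, le_rfl, rfl⟩ (ratio_inf k c hc)
      have h2 := upp_all k c hc
      have hp1 : (10000 : ℝ) ^ (k + 1) ≤ A ^ (k + 1) :=
        pow_le_pow_left₀ (by norm_num) hB1 _
      have hp2 : ((10 : ℝ) ^ 7) ^ (k + 1) ≤ A ^ (k + 1) :=
        pow_le_pow_left₀ (by norm_num) hAA7 _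
      rw [mul_min_of_nonneg _ _ (by positivity)]
      refine le_min ?_ ?_
      · refine h2.trans ?_
        rw [pow_succ (G c) k, ← mul_assoc]
        refine mul_le_mul_of_nonneg_right (mul_le_mul_of_nonneg_right hp2 hGk) (by linarith)
      · refine h1.trans (le_of_eq_of_le (by ring :
          (10000 : ℝ) ^ (k + 1) * (k + 1).factorial * G c ^ k =
            10000 ^ (k + 1) * G c ^ k * (k + 1).factorial) ?_)
        exact mul_le_mul_of_nonneg_right (mul_le_mul_of_nonneg_right hp1 hGk) (by positivity)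
    · exact hnew.trans (mul_le_mul_of_nonneg_right
        (pow_le_pow_left₀ (by linarith) hAA1 _) (hbd0 _ c hc))
  · intro d hd c hc
    obtain ⟨k, rfl⟩ : ∃ k, d = k + 2 := ⟨d - 2, by omega⟩
    have hnew := hu2 (k + 1) c (by omega) hc
    have hG := one_le_G hc
    have h1 := (hlow_one k).1 c hc
    have h2 := (hlow_inf k).1 c hc
    obtain ⟨k1, k2⟩ := key (k + 1) c hc
    obtain ⟨l1, l2⟩ := hlow k c hc
    have c1 : 0 ≤ CN (dOne (d := k + 2)) c := by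
      have : 1 ≤ 10000 * CN (dOne (d := k + 2)) c := k1
      linarith
    have c2 : 0 ≤ CN (dInf (d := k + 2)) c := by
      have : 1 ≤ 10000 * CN (dInf (d := k + 2)) c := k2
      linarith
    have hp : A0 ^ (k + 2) ≤ A ^ (k + 2) :=
      pow_le_pow_left₀ (by linarith) hAA0 _
    have e : k + 2 - 2 = k := rfl
    have e' : k + 2 - 1 = k + 1 := rfl
    rw [e, e', hLG, hbd]
    refine ⟨?_, l1.trans (mul_le_mul_of_nonneg_right hp c1), l2.trans
      (mul_le_mul_of_nonneg_right hp c2), ?_, ?_⟩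
    · exact hnew.trans (mul_le_mul_of_nonneg_right
        (pow_le_pow_left₀ (by linarith) hAA2 _) (hbd0 _ c hc))
    · exact h1.trans (mul_le_mul_of_nonneg_right (by linarith) c1)
    · exact h2.trans (mul_le_mul_of_nonneg_right (by linarith) c2)
  · intro B k
    obtain ⟨c, d, hc, hd, hk, h1, h2⟩ := Pool.Agent.Helper71.UQ.neg_all A (max |B| 1) k hB
      (le_max_right _ _)
    have hBd : B ^ d ≤ (max |B| 1) ^ d :=
      (le_abs_self _).trans (by rw [abs_pow]; exact pow_le_pow_left₀ (abs_nonneg _) (le_max_left _ _) _)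
    have hM0 : (0 : ℝ) ≤ max |B| 1 := le_trans zero_le_one (le_max_right _ _)
    obtain ⟨m, rfl⟩ : ∃ m, d = m + 2 := ⟨d - 2, by omega⟩
    have c1 : 0 ≤ CN (dOne (d := m + 2)) c := by
      have : 1 ≤ 10000 * CN (dOne (d := m + 2)) c := (key (m + 1) c hc).1
      linarith
    have c2 : 0 ≤ CN (dInf (d := m + 2)) c := by
      have : 1 ≤ 10000 * CN (dInf (d := m + 2)) c := (key (m + 1) c hc).2
      linarith
    refine ⟨c, m + 2, hc, hd, hk, lt_of_le_of_lt ?_ h1, lt_of_le_of_lt ?_ h2⟩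
    · refine (mul_le_mul_of_nonneg_right hBd c1).trans
        (mul_le_mul_of_nonneg_left ?_ (pow_nonneg hM0 _))
      exact (hu1 (m + 2) c (by omega) hc).trans (mul_le_mul_of_nonneg_right
        (pow_le_pow_left₀ (by linarith) hAA1 _) (hbd0 _ c hc))
    · refine (mul_le_mul_of_nonneg_right hBd c2).trans
        (mul_le_mul_of_nonneg_left ?_ (pow_nonneg hM0 _))
      exact (hu2 (m + 1) c (by omega) hc).trans (mul_le_mul_of_nonneg_right
        (pow_le_pow_left₀ (by linarith) hAA2 _) (hbd0 _ c hc))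

end Pool.Agent.Results.MP_9b2a83_an.GrowthLogRatio
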